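import Mathlib
import Pool.Agent.H770R2.Kad.Props

/-! Norm preserving lifts along *-homomorphisms. -/

open scoped ComplexOrder InnerProductSpace

noncomputable section

namespace H770R2.Kad


theorem lift_aux {A B : Type*} [CStarAlgebra A] [CStarAlgebra B] (φ : A →⋆ₐ[ℂ] B) (a : A) :
    ∃ a' : A, φ a' = φ a ∧ ‖a'‖ ≤ ‖φ a‖ := by
  by_cases hr : ‖φ a‖ = 0
  · exact ⟨0, by rw [map_zero]; exact (norm_eq_zero.1 hr).symm, by simp⟩
  have hφc : Continuous φ := (NonUnitalStarAlgHom.instContinuousLinearMapClassComplex (F := A →⋆ₐ[ℂ] B)).map_continuous φ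
  set r := ‖φ a‖ with hrdef
  have hr0 : 0 < r := lt_of_le_of_ne (norm_nonneg _) (Ne.symm hr)
  haveI : Nontrivial B := ⟨φ a, 0, fun h => hr (by rw [hrdef, h, norm_zero])⟩
  set f : ℝ → ℝ := fun t => r / Real.sqrt (max t (r ^ 2)) with hf
  have hpos : ∀ t : ℝ, 0 < Real.sqrt (max t (r^2)) := fun t => Real.sqrt_pos.2 (lt_max_of_lt_right (by positivity))
  have hfc : Continuous f := by
    apply Continuous.div continuous_const (Real.continuous_sqrt.comp (continuous_id.max continuous_const))
    intro t; exact (hpos t).ne'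
  have hsa : IsSelfAdjoint (star a * a) := IsSelfAdjoint.star_mul_self a
  refine ⟨a * cfc f (star a * a), ?_, ?_⟩
  · rw [map_mul]
    have h1 : φ (cfc f (star a * a)) = cfc f (φ (star a * a)) := by
      exact StarAlgHomClass.map_cfc φ f (star a * a) (hf := hfc.continuousOn) (hφ := hφc) (hφa := hsa.map φ)
    have h2 : cfc f (φ (star a * a)) = 1 := by
      rw [map_mul, map_star]
      rw [← cfc_const_one ℝ (star (φ a) * φ a)]
      apply cfc_congr
      intro t ht
      have h3 : ‖t‖ ≤ ‖star (φ a) * φ a‖ := spectrum.norm_le_norm_of_mem ht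
      rw [CStarRing.norm_star_mul_self, ← hrdef] at h3
      have h4 : t ≤ r ^ 2 := by
        have := le_abs_self t
        rw [Real.norm_eq_abs] at h3
        nlinarith
      simp only [hf]
      rw [max_eq_right h4, Real.sqrt_sq hr0.le, div_self hr0.ne']
    rw [h1, h2, mul_one]
  · have h1 : star (a * cfc f (star a * a)) * (a * cfc f (star a * a)) = cfc (fun t => f t * (t * f t)) (star a * a) := by
      rw [cfc_mul (fun t => f t) (fun t => t * f t) (star a * a) hfc.continuousOn (by fun_prop),
        cfc_mul (fun t => t) (fun t => f t) (star a * a) (by fun_prop) hfc.continuousOn, cfc_id' ℝ (star a * a)]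
      rw [star_mul, (IsSelfAdjoint.cfc (f := f) (a := star a * a)).star_eq]
      simp only [mul_assoc]
    have h2 : ‖a * cfc f (star a * a)‖ * ‖a * cfc f (star a * a)‖ ≤ r ^ 2 := by
      rw [← CStarRing.norm_star_mul_self, h1]
      apply norm_cfc_le (by positivity)
      intro t ht
      have ht0 : 0 ≤ t := by
        have := spectrum_star_mul_self_nonneg (b := a) t ht
        exact this
      have h3 : f t * (t * f t) = r ^ 2 * (t / max t (r^2)) := by
        simp only [hf]
        have h5 : Real.sqrt (max t (r^2)) ^ 2 = max t (r^2) := Real.sq_sqrt (by positivity)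
        have h6 := (hpos t).ne'
        rw [← h5]
        rw [Real.sqrt_sq (hpos t).le]
        field_simp
      have h7 : t / max t (r^2) ≤ 1 := by
        rw [div_le_one (lt_max_of_lt_right (by positivity))]
        exact le_max_left _ _
      have h8 : 0 ≤ t / max t (r^2) := by positivity
      rw [h3, Real.norm_eq_abs, abs_of_nonneg (by positivity)]
      nlinarith [sq_nonneg r]
    exact abs_le_of_sq_le_sq' (by nlinarith) hr0.le |>.2

universe u v

theorem prove_lift : G_lift.{u, v} := fun _ _ _ _ φ a => lift_aux φ a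

end H770R2.Kad
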